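import Pool.Agent.U856.BM.Stm2

/-!
# Project BM, package EG: if the phases of an orbit are not dense there is an eigenfunction

Proof by a minimal closed invariant set with nonempty fibres (Zorn); its fibres are the cosets of a
closed subgroup of the real numbers.
-/

set_option autoImplicit false

open Set Filter Topology ComplexConjugate

namespace Pool.Agent.U402.BM.EG

open Pool.Agent.U856.BM Relation

/-- the chords outside `K0` -/
def XX (a b v α : ℝ) (q : ℕ) : Set (St × ℝ) := {x | Al q x.1 ∧ InR a b v α x.1 x.2 ∧ ¬ K0 a b v α x}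

/-- closed invariant sets -/
structure Core (a b v α : ℝ) (q : ℕ) (Z : Set (St × ℝ × ℝ)) : Prop where
  sub : ∀ i u θ, (i, u, θ) ∈ Z → (i, u) ∈ XX a b v α q
  clo : ∀ i u θ, (i, u) ∈ XX a b v α q → (∀ ε : ℝ, 0 < ε → ∃ u' θ', |u' - u| < ε ∧ |θ' - θ| < ε ∧
    (i, u', θ') ∈ Z) → (i, u, θ) ∈ Z
  per : ∀ i u θ (k : ℤ), (i, u, θ) ∈ Z → (i, u, θ + k * ll a b) ∈ Z
  inv : ∀ p p' : St × ℝ × ℝ, (p.1, p.2.1) ∈ XX a b v α q → Stp a b v α p p' → (p ∈ Z ↔ p' ∈ Z)

section basic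

variable {a b v α : ℝ} {h q : ℕ}

theorem ll_pos (hR : Rat a b v α h q) : 0 < ll a b := by
  have h1 : 0.99 < a := hR.1.1
  unfold ll
  have : 0 < √(a ^ 2 + b ^ 2) := Real.sqrt_pos.mpr (by nlinarith [sq_nonneg b])
  linarith

theorem exit_open {i : St} {u : ℝ} {j : Fin 5} (he : Exit a b v α i u j) :
    ∃ δ : ℝ, 0 < δ ∧ ∀ u', |u' - u| < δ → Exit a b v α i u' j := by
  obtain ⟨h1, h2, h3⟩ := he
  refine ⟨min (u - min (uu a b i (vS a b v α j)) (uu a b i (vS a b v α (j + 1))))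
    (max (uu a b i (vS a b v α j)) (uu a b i (vS a b v α (j + 1))) - u),
    lt_min (by linarith) (by linarith), fun u' hu' => ⟨h1, ?_, ?_⟩⟩
  · have := abs_lt.mp (hu'.trans_le (min_le_left _ _))
    linarith [this.1]
  · have := abs_lt.mp (hu'.trans_le (min_le_right _ _))
    linarith [this.2]

theorem stq_open {z z' : St × ℝ} (hs : Stq a b v α z z') :
    ∃ δ : ℝ, 0 < δ ∧ ∀ s : ℝ, |s| < δ → Stq a b v α (z.1, z.2 + s) (z'.1, z'.2 + s) := by
  obtain ⟨j, hj, rfl⟩ := hs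
  obtain ⟨δ, hδ, hop⟩ := exit_open hj
  refine ⟨δ, hδ, fun s hs => ⟨j, hop _ (by simpa using hs), ?_⟩⟩
  simp only [Prod.mk.injEq, true_and]
  ring

theorem rtg_open {z z' : St × ℝ} (hs : ReflTransGen (Stq a b v α) z z') :
    ∃ δ : ℝ, 0 < δ ∧ ∀ s : ℝ, |s| < δ →
      ReflTransGen (Stq a b v α) (z.1, z.2 + s) (z'.1, z'.2 + s) := by
  induction hs with
  | refl => exact ⟨1, one_pos, fun s _ => ReflTransGen.refl⟩
  | tail _ hst ih =>
    obtain ⟨δ, hδ, h1⟩ := ih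
    obtain ⟨δ', hδ', h2⟩ := stq_open hst
    exact ⟨min δ δ', lt_min hδ hδ', fun s hs => (h1 s (hs.trans_le (min_le_left _ _))).tail
      (h2 s (hs.trans_le (min_le_right _ _)))⟩

theorem XX_open {i : St} {u : ℝ} (hx : (i, u) ∈ XX a b v α q) :
    ∀ᶠ u' in 𝓝 u, (i, u') ∈ XX a b v α q := by
  obtain ⟨h1, ⟨⟨k, hk⟩, ⟨k', hk'⟩⟩, h3⟩ := hx
  unfold K0 at h3
  push Not at h3
  obtain ⟨z', hz', hc⟩ := h3
  have hlt : ∀ᶠ u' in 𝓝 u, uu a b i (vS a b v α k) < u' := lt_mem_nhds hk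
  have hgt : ∀ᶠ u' in 𝓝 u, u' < uu a b i (vS a b v α k') := gt_mem_nhds hk'
  have hdist : ∀ δ : ℝ, 0 < δ → ∀ᶠ u' in 𝓝 u, |u' - u| < δ := fun δ hδ => by
    have := Metric.ball_mem_nhds u hδ
    filter_upwards [this] with u' hu'
    rwa [Metric.mem_ball, Real.dist_eq] at hu'
  rcases hz' with hz' | hz'
  · obtain ⟨δ, hδ, hop⟩ := rtg_open hz'
    filter_upwards [hlt, hgt, hdist δ hδ] with u' g1 g2 g3
    refine ⟨h1, ⟨⟨k, g1⟩, ⟨k', g2⟩⟩, fun hK => hc ?_⟩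
    have := hop (u' - u) g3
    simp only [add_sub_cancel] at this
    have h5 := hK (z'.1, z'.2 + (u' - u)) (Or.inl this)
    exact h5
  · obtain ⟨δ, hδ, hop⟩ := rtg_open hz'
    filter_upwards [hlt, hgt, hdist δ hδ] with u' g1 g2 g3
    refine ⟨h1, ⟨⟨k, g1⟩, ⟨k', g2⟩⟩, fun hK => hc ?_⟩
    have := hop (u' - u) g3
    simp only [add_sub_cancel] at this
    have h5 := hK (z'.1, z'.2 + (u' - u)) (Or.inr this)
    exact h5

theorem stq_det (hEX : S_EX) (hR : Rat a b v α h q) {z y y' : St × ℝ} (hA : Al q z.1)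
    (h1 : Stq a b v α z y) (h2 : Stq a b v α z y') : y = y' := by
  obtain ⟨j, hj, rfl⟩ := h1
  obtain ⟨j', hj', rfl⟩ := h2
  have := (hEX a b v α h q hR z.1 z.2 hA).2.1 j j' hj hj'
  rw [this]

theorem stq_al (hEX : S_EX) (hR : Rat a b v α h q) {z y : St × ℝ} (hA : Al q z.1)
    (h1 : Stq a b v α z y) : Al q y.1 ∧ InR a b v α z.1 z.2 ∧ InR a b v α y.1 y.2 := by
  obtain ⟨j, hj, rfl⟩ := h1
  obtain ⟨g1, g2, g3⟩ := (hEX a b v α h q hR z.1 z.2 hA).2.2.1 j hj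
  exact ⟨g2, g1, g3⟩

theorem stq_inj (hEX : S_EX) (hR : Rat a b v α h q) {z y y' : St × ℝ} (hA : Al q z.1)
    (h1 : Stq a b v α y z) (h2 : Stq a b v α y' z) : y = y' :=
  (hEX a b v α h q hR z.1 z.2 hA).2.2.2.2.2.1 y y' h1 h2

theorem K0_step (hEX : S_EX) (hR : Rat a b v α h q) {z z' : St × ℝ} (hA : Al q z.1)
    (hs : Stq a b v α z z') : K0 a b v α z ↔ K0 a b v α z' := by
  have hA' := (stq_al hEX hR hA hs).1
  constructor
  · intro hK w hw
    rcases hw with hw | hw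
    · exact hK w (Or.inl (ReflTransGen.head hs hw))
    · rcases ReflTransGen.cases_tail hw with rfl | ⟨y, hy, hy2⟩
      · exact hK _ (Or.inl (ReflTransGen.single hs))
      · have := stq_inj hEX hR hA' hy2 hs
        rw [this] at hy
        exact hK w (Or.inr hy)
  · intro hK w hw
    rcases hw with hw | hw
    · rcases ReflTransGen.cases_head hw with rfl | ⟨y, hy, hy2⟩
      · exact hK _ (Or.inr (ReflTransGen.single hs))
      · have := stq_det hEX hR hA hy hs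
        rw [this] at hy2
        exact hK w (Or.inl hy2)
    · exact hK w (Or.inr (hw.tail hs))

theorem XX_step (hEX : S_EX) (hR : Rat a b v α h q) {z z' : St × ℝ} (hA : Al q z.1)
    (hs : Stq a b v α z z') : z ∈ XX a b v α q ↔ z' ∈ XX a b v α q := by
  obtain ⟨g1, g2, g3⟩ := stq_al hEX hR hA hs
  have hk := K0_step hEX hR hA hs
  constructor
  · rintro ⟨_, _, h3⟩
    exact ⟨g1, g3, fun h4 => h3 (hk.mpr h4)⟩
  · rintro ⟨_, _, h3⟩
    exact ⟨hA, g2, fun h4 => h3 (hk.mp h4)⟩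

theorem stp_stq {p p' : St × ℝ × ℝ} (hs : Stp a b v α p p') :
    Stq a b v α (p.1, p.2.1) (p'.1, p'.2.1) := by
  obtain ⟨j, hj, rfl⟩ := hs
  exact ⟨j, hj, rfl⟩

theorem stp_shift {p p' : St × ℝ × ℝ} (hs : Stp a b v α p p') (g : ℝ) :
    Stp a b v α (p.1, p.2.1, p.2.2 + g) (p'.1, p'.2.1, p'.2.2 + g) := by
  obtain ⟨j, hj, rfl⟩ := hs
  refine ⟨j, hj, ?_⟩
  simp only [Prod.mk.injEq, true_and]
  ring

/-- lifting a step of the chords -/
theorem stq_stp {z z' : St × ℝ} (hs : Stq a b v α z z') :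
    ∃ r : ℝ, ∀ θ : ℝ, Stp a b v α (z.1, z.2, θ) (z'.1, z'.2, θ + r) := by
  obtain ⟨j, hj, rfl⟩ := hs
  exact ⟨2 * oS a b v j * dt (dd a b) (G z.1 (nS α j)), fun θ => ⟨j, hj, rfl⟩⟩

/-- phases may be taken in a period -/
theorem norm_phase (hR : Rat a b v α h q) (θ : ℝ) :
    ∃ k : ℤ, θ + k * ll a b ∈ Icc (0 : ℝ) (ll a b) := by
  have hL := ll_pos hR
  refine ⟨-⌊θ / ll a b⌋, ?_⟩
  have h1 := Int.floor_le (θ / ll a b)
  have h2 := (Int.lt_floor_add_one (θ / ll a b)).le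
  rw [le_div_iff₀ hL] at h1
  rw [div_le_iff₀ hL] at h2
  push_cast
  constructor <;> linarith

theorem comp {Z : Set (St × ℝ × ℝ)} (hZ : Core a b v α q Z) {i : St} {u : ℝ}
    (hx : (i, u) ∈ XX a b v α q) (un θn : ℕ → ℝ) (hu : Tendsto un atTop (𝓝 u))
    (hθ : ∀ n, θn n ∈ Icc (0 : ℝ) (ll a b)) (hmem : ∀ᶠ n in atTop, (i, un n, θn n) ∈ Z) :
    ∃ θ : ℝ, ∃ φ : ℕ → ℕ, StrictMono φ ∧ Tendsto (θn ∘ φ) atTop (𝓝 θ) ∧ (i, u, θ) ∈ Z := by
  obtain ⟨θ, _, φ, hφ, hlim⟩ := isCompact_Icc.tendsto_subseq hθ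
  refine ⟨θ, φ, hφ, hlim, hZ.clo i u θ hx fun ε hε => ?_⟩
  have e1 : ∀ᶠ n in atTop, |un (φ n) - u| < ε := by
    have := (hu.comp hφ.tendsto_atTop).eventually (Metric.ball_mem_nhds u hε)
    filter_upwards [this] with n hn
    have hn' : dist (un (φ n)) u < ε := hn
    rwa [Real.dist_eq] at hn'
  have e2 : ∀ᶠ n in atTop, |θn (φ n) - θ| < ε := by
    have := hlim.eventually (Metric.ball_mem_nhds θ hε)
    filter_upwards [this] with n hn
    have hn' : dist (θn (φ n)) θ < ε := hn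
    rwa [Real.dist_eq] at hn'
  have e3 : ∀ᶠ n in atTop, (i, un (φ n), θn (φ n)) ∈ Z := hφ.tendsto_atTop.eventually hmem
  obtain ⟨n, g1, g2, g3⟩ := (e1.and (e2.and e3)).exists
  exact ⟨_, _, g1, g2, g3⟩

theorem dich (hEX : S_EX) (hMI : S_MI) (hR : Rat a b v α h q) {Z : Set (St × ℝ × ℝ)}
    (hZ : Core a b v α q Z) :
    (∀ i u, (i, u) ∈ XX a b v α q → ∃ θ, (i, u, θ) ∈ Z) ∨
      ∀ i u, (i, u) ∈ XX a b v α q → ∀ θ, (i, u, θ) ∉ Z := by
  have hN : Inv a b v α q {x | x ∈ XX a b v α q ∧ ∀ θ, (x.1, x.2, θ) ∉ Z} := by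
    refine ⟨fun i => ?_, fun z hz => ⟨hz.1.1, hz.1.2.1⟩, fun z z' hA hs => ?_⟩
    · rw [isOpen_iff_mem_nhds]
      rintro u ⟨hu1, hu2⟩
      by_contra hcon
      have hfr : ∃ᶠ u' in 𝓝 u, ¬ ((i, u') ∈ XX a b v α q ∧ ∀ θ, (i, u', θ) ∉ Z) := by
        intro hev
        apply hcon
        filter_upwards [hev] with u' hu'
        exact not_not.mp hu'
      have hfr2 := hfr.and_eventually (XX_open hu1)
      obtain ⟨un, hun, hp⟩ := exists_seq_forall_of_frequently hfr2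
      have hex : ∀ n, ∃ θ, θ ∈ Icc (0 : ℝ) (ll a b) ∧ (i, un n, θ) ∈ Z := by
        intro n
        obtain ⟨p1, p2⟩ := hp n
        have : ¬ ∀ θ, (i, un n, θ) ∉ Z := fun h3 => p1 ⟨p2, h3⟩
        push Not at this
        obtain ⟨θ, hθ⟩ := this
        obtain ⟨k, hk⟩ := norm_phase hR θ
        exact ⟨_, hk, hZ.per _ _ _ k hθ⟩
      choose θn hθ1 hθ2 using hex
      obtain ⟨θ, _, _, _, hθ⟩ := comp hZ hu1 un θn hun hθ1 (Eventually.of_forall hθ2)
      exact hu2 θ hθ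
    · have hXX := XX_step hEX hR hA hs
      obtain ⟨r, hr⟩ := stq_stp hs
      constructor
      · rintro ⟨h1, h2⟩
        refine ⟨hXX.mp h1, fun θ hθ => h2 (θ - r) ?_⟩
        have h3 := hr (θ - r)
        rw [sub_add_cancel] at h3
        exact (hZ.inv _ _ h1 h3).mpr hθ
      · rintro ⟨h1, h2⟩
        refine ⟨hXX.mpr h1, fun θ hθ => h2 (θ + r) ?_⟩
        exact (hZ.inv _ _ (hXX.mpr h1) (hr θ)).mp hθ
  rcases hMI a b v α h q hR _ hN with h1 | h1
  · right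
    intro i u hx θ
    exact (h1 (i, u) hx.1 hx.2.1 hx.2.2).2 θ
  · left
    intro i u hx
    have h2 := h1 (i, u) hx.1 hx.2.1 hx.2.2
    by_contra h3
    push Not at h3
    exact h2 ⟨hx, h3⟩

/-- closed invariant sets with nonempty fibres -/
def Full (a b v α : ℝ) (q : ℕ) : Set (Set (St × ℝ × ℝ)) :=
  {Z | Core a b v α q Z ∧ ∀ i u, (i, u) ∈ XX a b v α q → ∃ θ, (i, u, θ) ∈ Z}

theorem fibre_closed {Z : Set (St × ℝ × ℝ)} (hZ : Core a b v α q Z) {i : St} {u : ℝ}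
    (hx : (i, u) ∈ XX a b v α q) : IsClosed {θ : ℝ | (i, u, θ) ∈ Z} := by
  rw [← closure_subset_iff_isClosed]
  intro θ hθ
  rw [Metric.mem_closure_iff] at hθ
  refine hZ.clo i u θ hx fun ε hε => ?_
  obtain ⟨θ', h1, h2⟩ := hθ ε hε
  refine ⟨u, θ', by simpa using hε, ?_, h1⟩
  rw [dist_comm, Real.dist_eq] at h2
  exact h2

theorem chain_inter (hR : Rat a b v α h q) (c : Set (Set (St × ℝ × ℝ))) (hc : c ⊆ Full a b v α q)
    (hch : IsChain (· ⊆ ·) c) (hne : c.Nonempty) :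
    ∃ lb ∈ Full a b v α q, ∀ s ∈ c, lb ⊆ s := by
  refine ⟨⋂₀ c, ⟨⟨?_, ?_, ?_, ?_⟩, ?_⟩, fun s hs => sInter_subset_of_mem hs⟩
  · intro i u θ hp
    obtain ⟨s, hs⟩ := hne
    exact (hc hs).1.sub i u θ (hp s hs)
  · intro i u θ hx happ s hs
    refine (hc hs).1.clo i u θ hx fun ε hε => ?_
    obtain ⟨u', θ', h1, h2, h3⟩ := happ ε hε
    exact ⟨u', θ', h1, h2, h3 s hs⟩
  · intro i u θ k hp s hs
    exact (hc hs).1.per i u θ k (hp s hs)
  · intro p p' hx hst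
    constructor
    · intro hp s hs
      exact ((hc hs).1.inv p p' hx hst).mp (hp s hs)
    · intro hp s hs
      exact ((hc hs).1.inv p p' hx hst).mpr (hp s hs)
  · intro i u hx
    have : Nonempty c := hne.to_subtype
    have key : (⋂ s : c, (Icc (0 : ℝ) (ll a b) ∩ {θ : ℝ | (i, u, θ) ∈ (s : Set (St × ℝ × ℝ))})).Nonempty := by
      apply IsCompact.nonempty_iInter_of_directed_nonempty_isCompact_isClosed
      · intro s t
        rcases hch.total s.2 t.2 with h1 | h1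
        · exact ⟨s, subset_rfl, fun θ hθ => ⟨hθ.1, h1 hθ.2⟩⟩
        · exact ⟨t, fun θ hθ => ⟨hθ.1, h1 hθ.2⟩, subset_rfl⟩
      · intro s
        obtain ⟨θ, hθ⟩ := (hc s.2).2 i u hx
        obtain ⟨k, hk⟩ := norm_phase hR θ
        exact ⟨_, hk, (hc s.2).1.per _ _ _ k hθ⟩
      · intro s
        exact isCompact_Icc.inter_right (fibre_closed (hc s.2).1 hx)
      · intro s
        exact isClosed_Icc.inter (fibre_closed (hc s.2).1 hx)
    obtain ⟨θ, hθ⟩ := key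
    rw [mem_iInter] at hθ
    exact ⟨θ, fun s hs => (hθ ⟨s, hs⟩).2⟩

/-- translations which keep one point keep the whole minimal set -/
theorem shift_sub (hEX : S_EX) (hMI : S_MI) (hR : Rat a b v α h q) {Z : Set (St × ℝ × ℝ)}
    (hmin : Minimal (· ∈ Full a b v α q) Z) (g : ℝ) {i : St} {u θ : ℝ} (h1 : (i, u, θ) ∈ Z)
    (h2 : (i, u, θ + g) ∈ Z) : ∀ i' u' θ', (i', u', θ') ∈ Z → (i', u', θ' + g) ∈ Z := by
  have hZ : Core a b v α q Z := hmin.prop.1
  have hW : Core a b v α q {p | p ∈ Z ∧ (p.1, p.2.1, p.2.2 + g) ∈ Z} := by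
    refine ⟨fun i u θ hp => hZ.sub i u θ hp.1, fun i u θ hx happ => ⟨?_, ?_⟩, ?_, ?_⟩
    · refine hZ.clo i u θ hx fun ε hε => ?_
      obtain ⟨u', θ', g1, g2, g3⟩ := happ ε hε
      exact ⟨u', θ', g1, g2, g3.1⟩
    · refine hZ.clo i u (θ + g) hx fun ε hε => ?_
      obtain ⟨u', θ', g1, g2, g3⟩ := happ ε hε
      exact ⟨u', θ' + g, g1, by rwa [add_sub_add_right_eq_sub], g3.2⟩
    · intro i u θ k hp
      refine ⟨hZ.per i u θ k hp.1, ?_⟩
      have := hZ.per i u (θ + g) k hp.2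
      rwa [show θ + g + k * ll a b = θ + k * ll a b + g by ring] at this
    · intro p p' hx hst
      have e1 := hZ.inv p p' hx hst
      have e2 := hZ.inv _ _ (show (((p.1, p.2.1, p.2.2 + g) : St × ℝ × ℝ).1,
        ((p.1, p.2.1, p.2.2 + g) : St × ℝ × ℝ).2.1) ∈ XX a b v α q from hx) (stp_shift hst g)
      constructor
      · rintro ⟨g1, g2⟩
        exact ⟨e1.mp g1, e2.mp g2⟩
      · rintro ⟨g1, g2⟩
        exact ⟨e1.mpr g1, e2.mpr g2⟩
  rcases dich hEX hMI hR hW with hd | hd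
  · have hle := hmin.le_of_le (y := {p | p ∈ Z ∧ (p.1, p.2.1, p.2.2 + g) ∈ Z}) ⟨hW, hd⟩
      (fun p hp => hp.1)
    intro i' u' θ' hp
    exact (hle hp).2
  · exact absurd (show (i, u, θ) ∈ {p : St × ℝ × ℝ | p ∈ Z ∧ (p.1, p.2.1, p.2.2 + g) ∈ Z} from
      ⟨h1, h2⟩) (hd i u (hZ.sub i u θ h1) θ)

/-- the limit points of the sequence -/
def Lim (a b v α : ℝ) (q : ℕ) (z : ℕ → St × ℝ × ℝ) : Set (St × ℝ × ℝ) :=
  {p | (p.1, p.2.1) ∈ XX a b v α q ∧ ∀ ε : ℝ, 0 < ε → ∀ n : ℕ, ∃ m, n ≤ m ∧ ∃ k : ℤ,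
    (z m).1 = p.1 ∧ |(z m).2.1 - p.2.1| < ε ∧ |(z m).2.2 - p.2.2 - k * ll a b| < ε}

theorem lim_core (hEX : S_EX) (hR : Rat a b v α h q) {z : ℕ → St × ℝ × ℝ}
    (hA : ∀ n, Al q (z n).1) (hS : ∀ n, Stp a b v α (z n) (z (n + 1))) :
    Core a b v α q (Lim a b v α q z) := by
  refine ⟨fun i u θ hp => hp.1, fun i u θ hx happ => ⟨hx, fun ε hε n => ?_⟩,
    fun i u θ k hp => ⟨hp.1, fun ε hε n => ?_⟩, fun p p' hx hst => ?_⟩
  · obtain ⟨u', θ', g1, g2, g3⟩ := happ (ε / 2) (by linarith)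
    obtain ⟨m, hm, k, k1, k2, k3⟩ := g3.2 (ε / 2) (by linarith) n
    refine ⟨m, hm, k, k1, ?_, ?_⟩
    · have := abs_sub_le (z m).2.1 u' u
      have k2' : |(z m).2.1 - u'| < ε / 2 := k2
      show |(z m).2.1 - u| < ε
      linarith
    · have k3' : |(z m).2.2 - θ' - k * ll a b| < ε / 2 := k3
      show |(z m).2.2 - θ - k * ll a b| < ε
      have e : (z m).2.2 - θ - k * ll a b = ((z m).2.2 - θ' - k * ll a b) + (θ' - θ) := by ring
      rw [e]
      have := abs_add_le ((z m).2.2 - θ' - k * ll a b) (θ' - θ)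
      linarith
  · obtain ⟨m, hm, k', k1, k2, k3⟩ := hp.2 ε hε n
    refine ⟨m, hm, k' - k, k1, k2, ?_⟩
    have k3' : |(z m).2.2 - θ - k' * ll a b| < ε := k3
    show |(z m).2.2 - (θ + k * ll a b) - ((k' - k : ℤ) : ℝ) * ll a b| < ε
    push_cast
    have e : (z m).2.2 - (θ + k * ll a b) - ((k' : ℝ) - k) * ll a b =
      (z m).2.2 - θ - k' * ll a b := by ring
    rwa [e]
  · obtain ⟨j, hj, hp'⟩ := hst
    have hx' : (p'.1, p'.2.1) ∈ XX a b v α q :=
      (XX_step hEX hR (z := (p.1, p.2.1)) hx.1 (stp_stq ⟨j, hj, hp'⟩)).mp hx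
    obtain ⟨δ, hδ, hop⟩ := exit_open hj
    have p1 : p'.1 = rs α j p.1 := by rw [hp']
    have p2 : p'.2.1 = p.2.1 - 2 * oS a b v j * cr (dd a b) (G p.1 (nS α j)) := by rw [hp']
    have p3 : p'.2.2 = p.2.2 + 2 * oS a b v j * dt (dd a b) (G p.1 (nS α j)) := by rw [hp']
    constructor
    · rintro ⟨_, hlim⟩
      refine ⟨hx', fun ε hε n => ?_⟩
      obtain ⟨m, hm, k, k1, k2, k3⟩ := hlim (min ε δ) (lt_min hε hδ) n
      have hex : Exit a b v α (z m).1 (z m).2.1 j := by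
        rw [k1]
        exact hop _ (k2.trans_le (min_le_right _ _))
      obtain ⟨j', hj', hz'⟩ := hS m
      have hjj := (hEX a b v α h q hR (z m).1 (z m).2.1 (hA m)).2.1 j j' hex hj'
      subst hjj
      refine ⟨m + 1, by omega, k, ?_, ?_, ?_⟩
      · rw [hz', p1, k1]
      · rw [hz', p2, k1]
        show |(z m).2.1 - 2 * oS a b v j * cr (dd a b) (G p.1 (nS α j)) -
          (p.2.1 - 2 * oS a b v j * cr (dd a b) (G p.1 (nS α j)))| < ε
        rw [sub_sub_sub_cancel_right]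
        exact k2.trans_le (min_le_left _ _)
      · rw [hz', p3, k1]
        show |(z m).2.2 + 2 * oS a b v j * dt (dd a b) (G p.1 (nS α j)) -
          (p.2.2 + 2 * oS a b v j * dt (dd a b) (G p.1 (nS α j))) - k * ll a b| < ε
        rw [add_sub_add_right_eq_sub]
        exact k3.trans_le (min_le_left _ _)
    · rintro ⟨_, hlim⟩
      refine ⟨hx, fun ε hε n => ?_⟩
      obtain ⟨m, hm, k, k1, k2, k3⟩ := hlim (min ε δ) (lt_min hε hδ) (n + 1)
      obtain ⟨m', rfl⟩ : ∃ m', m = m' + 1 := ⟨m - 1, by omega⟩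
      have hSm := hS m'
      have hex : Exit a b v α p.1 (p.2.1 + ((z (m' + 1)).2.1 - p'.2.1)) j := by
        refine hop _ ?_
        rw [add_sub_cancel_left]
        exact k2.trans_le (min_le_right _ _)
      have hstq : Stq a b v α (p.1, p.2.1 + ((z (m' + 1)).2.1 - p'.2.1))
          ((z (m' + 1)).1, (z (m' + 1)).2.1) := by
        refine ⟨j, hex, ?_⟩
        rw [k1, p1, Prod.mk.injEq]
        refine ⟨rfl, ?_⟩
        show (z (m' + 1)).2.1 = p.2.1 + ((z (m' + 1)).2.1 - p'.2.1) -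
          2 * oS a b v j * cr (dd a b) (G p.1 (nS α j))
        rw [p2]
        ring
      have heq := stq_inj hEX hR (z := ((z (m' + 1)).1, (z (m' + 1)).2.1)) (hA (m' + 1)) hstq
        (stp_stq hSm)
      rw [Prod.mk.injEq] at heq
      obtain ⟨q1, q2⟩ := heq
      obtain ⟨j', hj', hz'⟩ := hSm
      have hjj : j = j' := by
        refine (hEX a b v α h q hR (z m').1 (z m').2.1 (hA m')).2.1 j j' ?_ hj'
        rw [← q1, ← q2]
        exact hex
      subst hjj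
      have z3 : (z (m' + 1)).2.2 = (z m').2.2 +
          2 * oS a b v j * dt (dd a b) (G (z m').1 (nS α j)) := by rw [hz']
      refine ⟨m', by omega, k, q1.symm, ?_, ?_⟩
      · rw [← q2, add_sub_cancel_left]
        exact k2.trans_le (min_le_left _ _)
      · have k3' := k3.trans_le (min_le_left ε δ)
        rw [z3, p3, ← q1] at k3'
        rwa [add_sub_add_right_eq_sub] at k3'

theorem t_EG : S_EX → S_MI → S_EG := by
  intro hEX hMI a b v α h q hR z hA hS hlimpt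
  by_cases hdense : ∀ (i : St) (u φ ε : ℝ), Al q i → ¬ C0 i → InR a b v α i u → 0 < ε →
      ∃ (n : ℕ) (k : ℤ), (z n).1 = i ∧
    |(z n).2.1 - u| < ε ∧ |(z n).2.2 - φ - k * ll a b| < ε
  · exact Or.inl hdense
  right
  push Not at hdense
  obtain ⟨i₁, u₁, φ₁, ε₁, hA₁, hC₁, hI₁, hε₁, hno⟩ := hdense
  have hL := ll_pos hR
  have hnotK : ∀ (i : St) (u : ℝ), ¬ C0 i → ¬ K0 a b v α (i, u) := fun i u hC hK =>
    hC (hK (i, u) (Or.inl ReflTransGen.refl))
  have hx₁ : (i₁, u₁) ∈ XX a b v α q := ⟨hA₁, hI₁, hnotK _ _ hC₁⟩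
  have hcore := lim_core hEX hR hA hS
  have hnot1 : (i₁, u₁, φ₁) ∉ Lim a b v α q z := by
    rintro ⟨_, hl⟩
    obtain ⟨m, _, k, k1, k2, k3⟩ := hl ε₁ hε₁ 0
    exact absurd k3 (not_lt.mpr (hno m k k1 k2))
  -- the fibres of the limit set are not empty
  have hfull : Lim a b v α q z ∈ Full a b v α q := by
    refine ⟨hcore, ?_⟩
    rcases dich hEX hMI hR hcore with hd | hd
    · exact hd
    · exfalso
      obtain ⟨i, u, hAi, hCi, hIi, hlp⟩ := hlimpt
      have hx : (i, u) ∈ XX a b v α q := ⟨hAi, hIi, hnotK _ _ hCi⟩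
      have hm : ∀ n : ℕ, ∃ m, n ≤ m ∧ (z m).1 = i ∧ |(z m).2.1 - u| < 1 / ((n : ℝ) + 1) :=
        fun n => hlp _ (by positivity) n
      choose mn hm1 hm2 hm3 using hm
      choose kn hkn using fun n => norm_phase hR (z (mn n)).2.2
      obtain ⟨θ, _, φ, hφ, hlim⟩ := isCompact_Icc.tendsto_subseq hkn
      refine hd i u hx θ ⟨hx, fun ε hε n => ?_⟩
      have e1 : ∀ᶠ N in atTop, |((z (mn (φ N))).2.2 + (kn (φ N) : ℝ) * ll a b) - θ| < ε := by
        have := hlim.eventually (Metric.ball_mem_nhds θ hε)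
        filter_upwards [this] with N hN
        have hN' : dist ((z (mn (φ N))).2.2 + (kn (φ N) : ℝ) * ll a b) θ < ε := hN
        rwa [Real.dist_eq] at hN'
      have e2 : ∀ᶠ N : ℕ in atTop, 1 / (((φ N : ℕ) : ℝ) + 1) < ε := by
        have := (tendsto_one_div_add_atTop_nhds_zero_nat (𝕜 := ℝ)).comp hφ.tendsto_atTop
        exact this.eventually (gt_mem_nhds hε)
      obtain ⟨N, g1, g2, g3⟩ := (e1.and (e2.and (eventually_ge_atTop n))).exists
      refine ⟨mn (φ N), (g3.trans (hφ.id_le N)).trans (hm1 _), -kn (φ N), hm2 _,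
        (hm3 _).trans g2, ?_⟩
      show |(z (mn (φ N))).2.2 - θ - ((-kn (φ N) : ℤ) : ℝ) * ll a b| < ε
      push_cast
      rwa [show (z (mn (φ N))).2.2 - θ - -(kn (φ N) : ℝ) * ll a b =
        ((z (mn (φ N))).2.2 + (kn (φ N) : ℝ) * ll a b) - θ by ring]
  obtain ⟨Z, hZsub, hmin⟩ := zorn_superset_nonempty (Full a b v α q)
    (fun c hc hch hne => chain_inter hR c hc hch hne) _ hfull
  have hZ : Core a b v α q Z := hmin.prop.1
  have hZne := hmin.prop.2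
  -- the group of the translations
  let H : AddSubgroup ℝ :=
    { carrier := {g | ∀ i u θ, (i, u, θ) ∈ Z ↔ (i, u, θ + g) ∈ Z}
      zero_mem' := by intro i u θ; rw [add_zero]
      add_mem' := by
        intro g g' hg hg' i u θ
        rw [hg i u θ, hg' i u (θ + g), add_assoc]
      neg_mem' := by
        intro g hg i u θ
        have := hg i u (θ + -g)
        rw [neg_add_cancel_right] at this
        exact this.symm }
  have hmemH : ∀ g : ℝ, g ∈ H ↔ ∀ i u θ, (i, u, θ) ∈ Z ↔ (i, u, θ + g) ∈ Z := fun g => Iff.rfl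
  have hdiff : ∀ i u θ θ', (i, u, θ) ∈ Z → (i, u, θ') ∈ Z → θ' - θ ∈ H := by
    intro i u θ θ' h1 h2
    rw [hmemH]
    intro i' u' θ''
    constructor
    · intro h3
      exact shift_sub hEX hMI hR hmin (θ' - θ) h1 (by rwa [add_sub_cancel]) i' u' θ'' h3
    · intro h3
      have h4 := shift_sub hEX hMI hR hmin (θ - θ') h2 (by rwa [add_sub_cancel]) i' u' _ h3
      rwa [show θ'' + (θ' - θ) + (θ - θ') = θ'' by ring] at h4
  have hclosed : IsClosed (H : Set ℝ) := by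
    rw [← closure_subset_iff_isClosed]
    intro g hg
    rw [Metric.mem_closure_iff] at hg
    show g ∈ H
    rw [hmemH]
    intro i u θ
    constructor
    · intro h1
      refine hZ.clo i u (θ + g) (hZ.sub i u θ h1) fun ε hε => ?_
      obtain ⟨g', hg', hd⟩ := hg ε hε
      refine ⟨u, θ + g', by simpa using hε, ?_, ((hmemH g').mp hg' i u θ).mp h1⟩
      rw [add_sub_add_left_eq_sub, ← Real.dist_eq, dist_comm]
      exact hd
    · intro h1
      have hx := hZ.sub i u _ h1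
      refine hZ.clo i u θ hx fun ε hε => ?_
      obtain ⟨g', hg', hd⟩ := hg ε hε
      refine ⟨u, θ + g - g', by simpa using hε, ?_, ?_⟩
      · rw [show θ + g - g' - θ = g - g' by ring, ← Real.dist_eq]
        exact hd
      · rw [(hmemH g').mp hg' i u (θ + g - g'), sub_add_cancel]
        exact h1
  have hLH : ll a b ∈ H := by
    rw [hmemH]
    intro i u θ
    constructor
    · intro h1
      have := hZ.per i u θ 1 h1
      simpa using this
    · intro h1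
      have := hZ.per i u _ (-1) h1
      simpa using this
  have hcyc : ∃ g0 : ℝ, H = AddSubgroup.closure {g0} := by
    rcases AddSubgroup.dense_or_cyclic H with hd | hc
    · exfalso
      have huniv : (H : Set ℝ) = univ := by
        rw [← hclosed.closure_eq]
        exact hd.closure_eq
      obtain ⟨θ, hθ⟩ := hZne i₁ u₁ hx₁
      have hg : φ₁ - θ ∈ H := by
        have : φ₁ - θ ∈ (H : Set ℝ) := by rw [huniv]; trivial
        exact this
      have h1 := ((hmemH _).mp hg i₁ u₁ θ).mp hθ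
      rw [add_sub_cancel] at h1
      exact hnot1 (hZsub h1)
    · exact hc
  obtain ⟨g0, hg0⟩ := hcyc
  have hmul : ∀ g ∈ H, ∃ n : ℤ, g = n * g0 := by
    intro g hg
    rw [hg0, AddSubgroup.mem_closure_singleton] at hg
    obtain ⟨n, hn⟩ := hg
    exact ⟨n, by rw [← hn, zsmul_eq_mul]⟩
  obtain ⟨n0, hn0⟩ := hmul _ hLH
  have hn00 : n0 ≠ 0 := by
    rintro rfl
    simp at hn0
    linarith
  have hg00 : g0 ≠ 0 := by
    rintro rfl
    simp at hn0
    linarith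
  have hper : ∀ g ∈ H, Complex.exp (2 * Real.pi * Complex.I * (n0.natAbs : ℂ) * (g : ℝ) / (ll a b : ℝ)) = 1 := by
    intro g hg
    obtain ⟨n, hn⟩ := hmul g hg
    have hn0c : (n0 : ℂ) ≠ 0 := by exact_mod_cast hn00
    have hg0c : (g0 : ℂ) ≠ 0 := by exact_mod_cast hg00
    have hLc : ((ll a b : ℝ) : ℂ) = (n0 : ℂ) * (g0 : ℂ) := by
      rw [hn0]; push_cast; rfl
    have hgc : ((g : ℝ) : ℂ) = (n : ℂ) * (g0 : ℂ) := by
      rw [hn]; push_cast; rfl
    rcases Int.natAbs_eq n0 with hs | hs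
    · have hsc : (n0.natAbs : ℂ) = (n0 : ℂ) :=
        (Int.cast_natCast n0.natAbs).symm.trans (congrArg (fun t : ℤ => (t : ℂ)) hs.symm)
      rw [hLc, hgc, hsc, show 2 * (Real.pi : ℂ) * Complex.I * (n0 : ℂ) * ((n : ℂ) * (g0 : ℂ)) /
        ((n0 : ℂ) * (g0 : ℂ)) = (n : ℂ) * (2 * Real.pi * Complex.I) by field_simp]
      exact Complex.exp_int_mul_two_pi_mul_I n
    · have hsc : (n0.natAbs : ℂ) = -(n0 : ℂ) := by
        have h6 : ((n0.natAbs : ℤ)) = -n0 := by omega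
        have h7 : ((n0.natAbs : ℤ) : ℂ) = ((-n0 : ℤ) : ℂ) := congrArg (fun t : ℤ => (t : ℂ)) h6
        rw [Int.cast_natCast, Int.cast_neg] at h7
        exact h7
      rw [hLc, hgc, hsc, show 2 * (Real.pi : ℂ) * Complex.I * -(n0 : ℂ) * ((n : ℂ) * (g0 : ℂ)) /
        ((n0 : ℂ) * (g0 : ℂ)) = ((-n : ℤ) : ℂ) * (2 * Real.pi * Complex.I) by
          push_cast; field_simp]
      exact Complex.exp_int_mul_two_pi_mul_I (-n)
  -- the eigenfunction
  set k := n0.natAbs with hk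
  have hk1 : 1 ≤ k := Nat.one_le_iff_ne_zero.mpr (by rw [hk]; exact Int.natAbs_ne_zero.mpr hn00)
  let ee : ℝ → ℂ := fun θ => Complex.exp (2 * Real.pi * Complex.I * (k : ℂ) * (θ : ℝ) / (ll a b : ℝ))
  have hee : ∀ θ, ee θ = Complex.exp (2 * Real.pi * Complex.I * (k : ℂ) * (θ : ℝ) / (ll a b : ℝ)) :=
    fun _ => rfl
  have hee_norm : ∀ θ, ‖ee θ‖ = 1 := by
    intro θ
    rw [hee, show 2 * (Real.pi : ℂ) * Complex.I * (k : ℂ) * (θ : ℂ) / (ll a b : ℂ) =
      ((2 * Real.pi * k * θ / ll a b : ℝ) : ℂ) * Complex.I by push_cast; ring]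
    exact Complex.norm_exp_ofReal_mul_I _
  have hee_add : ∀ θ g, ee (θ + g) = ee g * ee θ := by
    intro θ g
    rw [hee, hee, hee, ← Complex.exp_add]
    congr 1
    push_cast
    ring
  have hee_cont : Continuous ee := by
    show Continuous fun θ : ℝ =>
      Complex.exp (2 * Real.pi * Complex.I * (k : ℂ) * (θ : ℝ) / (ll a b : ℝ))
    fun_prop
  have hee_eq : ∀ i u θ θ', (i, u, θ) ∈ Z → (i, u, θ') ∈ Z → ee θ = ee θ' := by
    intro i u θ θ' h1 h2
    have h3 := hper _ (hdiff i u θ θ' h1 h2)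
    have h4 := hee_add θ (θ' - θ)
    rw [add_sub_cancel] at h4
    rw [h4, hee (θ' - θ), h3, one_mul]
  classical
  let F : St × ℝ → ℂ := fun x => if hx : ∃ θ, (x.1, x.2, θ) ∈ Z then ee hx.choose else 1
  have hF : ∀ i u θ, (i, u, θ) ∈ Z → F (i, u) = ee θ := by
    intro i u θ hθ
    have hex : ∃ θ, (((i, u) : St × ℝ).1, ((i, u) : St × ℝ).2, θ) ∈ Z := ⟨θ, hθ⟩
    show (if hx : ∃ θ, (((i, u) : St × ℝ).1, ((i, u) : St × ℝ).2, θ) ∈ Z then ee hx.choose else 1) =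
      ee θ
    rw [dif_pos hex]
    exact hee_eq i u _ _ hex.choose_spec hθ
  refine ⟨k, F, hk1, ?_, ?_, ?_⟩
  · intro x h1 h2 h3
    obtain ⟨θ, hθ⟩ := hZne x.1 x.2 ⟨h1, h2, h3⟩
    have : F x = ee θ := hF x.1 x.2 θ hθ
    rw [this]
    exact hee_norm θ
  · intro i u h1 h2 h3
    have hx : (i, u) ∈ XX a b v α q := ⟨h1, h2, h3⟩
    refine tendsto_of_subseq_tendsto fun un hun => ?_
    have hev : ∀ᶠ n in atTop, (i, un n) ∈ XX a b v α q := hun.eventually (XX_open hx)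
    have hex : ∀ n, ∃ θ, θ ∈ Icc (0 : ℝ) (ll a b) ∧ ((i, un n) ∈ XX a b v α q → (i, un n, θ) ∈ Z) := by
      intro n
      by_cases hn : (i, un n) ∈ XX a b v α q
      · obtain ⟨θ, hθ⟩ := hZne i (un n) hn
        obtain ⟨k', hk'⟩ := norm_phase hR θ
        exact ⟨_, hk', fun _ => hZ.per _ _ _ k' hθ⟩
      · exact ⟨0, ⟨le_rfl, hL.le⟩, fun hn' => absurd hn' hn⟩
    choose θn hθ1 hθ2 using hex
    obtain ⟨θ, φ, hφ, hlim, hθ⟩ := comp hZ hx un θn hun hθ1
      (hev.mono fun n hn => hθ2 n hn)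
    refine ⟨φ, ?_⟩
    show Tendsto (fun n => F (i, un (φ n))) atTop (𝓝 (F (i, u)))
    rw [hF i u θ hθ]
    have h5 : Tendsto (fun n => ee ((θn ∘ φ) n)) atTop (𝓝 (ee θ)) :=
      (hee_cont.tendsto θ).comp hlim
    refine h5.congr' ?_
    filter_upwards [hφ.tendsto_atTop.eventually hev] with n hn
    exact (hF i (un (φ n)) _ (hθ2 (φ n) hn)).symm
  · intro p p' h1 h2 hst
    have hin := (stq_al hEX hR (z := (p.1, p.2.1)) h1 (stp_stq hst)).2.1
    have hx : (p.1, p.2.1) ∈ XX a b v α q := ⟨h1, hin, h2⟩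
    obtain ⟨θ, hθ⟩ := hZne p.1 p.2.1 hx
    have h3 := stp_shift hst (θ - p.2.2)
    rw [add_sub_cancel] at h3
    have h4 := (hZ.inv _ _ (show (((p.1, p.2.1, θ) : St × ℝ × ℝ).1,
      ((p.1, p.2.1, θ) : St × ℝ × ℝ).2.1) ∈ XX a b v α q from hx) h3).mp hθ
    rw [hF _ _ _ hθ, hF _ _ _ h4, show p'.2.2 + (θ - p.2.2) = θ + (p'.2.2 - p.2.2) by ring, hee_add]

end basic

end Pool.Agent.U402.BM.EG
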